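import Pool.Agent.N162.HN.Stm

/-!
# Project HN (helper162): transport of curves along isomorphisms, and the parts CONJ, INF, ISO
-/

set_option autoImplicit false
set_option linter.unusedSectionVars false

open FF Pool.Agent.W603.LV Pool.Agent.N162.HN IntermediateField MvPolynomial

namespace Pool.Agent.N681.HN

section transport

variable {n : ℕ} {Ω Ω' E E' : Type} [Field Ω] [Field Ω'] [Field E] [Field E'] [Algebra Ω E]
  [Algebra Ω' E'] (τ : Ω ≃+* Ω') (φ : E ≃+* E')
  (h : ∀ a, φ (algebraMap Ω E a) = algebraMap Ω' E' (τ a))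

include h

theorem symm_comm (a : Ω') : φ.symm (algebraMap Ω' E' a) = algebraMap Ω E (τ.symm a) := by
  apply φ.injective
  rw [h]
  simp

/-- a place of `E'` as a place of `E` -/
def back (v : Place Ω' E') : Place Ω E where
  ord f := v.ord (φ f)
  ord_zero := by rw [map_zero]; exact v.ord_zero
  ord_mul {f g} hf hg := by
    rw [map_mul]
    exact v.ord_mul ((map_ne_zero φ).2 hf) ((map_ne_zero φ).2 hg)
  ord_add {f g} hf hg hfg := by
    have h1 : φ f + φ g ≠ 0 := by
      rw [← map_add]; exact (map_ne_zero φ).2 hfg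
    rw [map_add]
    exact v.ord_add ((map_ne_zero φ).2 hf) ((map_ne_zero φ).2 hg) h1
  ord_const {c} hc := by
    rw [h]
    exact v.ord_const ((map_ne_zero τ).2 hc)
  surj := by
    obtain ⟨t, ht, h1⟩ := v.surj
    refine ⟨φ.symm t, (map_ne_zero φ.symm).2 ht, ?_⟩
    rw [RingEquiv.apply_symm_apply]
    exact h1

theorem back_ord (v : Place Ω' E') (f : E) : (back τ φ h v).ord f = v.ord (φ f) := rfl

theorem ge_back (v : Place Ω' E') (m : ℤ) (f : E) : Ge (back τ φ h v) m f ↔ Ge v m (φ f) := by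
  unfold Ge
  rw [back_ord, map_eq_zero]

theorem at_back (v : Place Ω' E') (X : Fin (n + 2) → E) (p : Fin (n + 2) → Ω) :
    At (back τ φ h v) X p ↔ At v (fun i => φ (X i)) (fun i => τ (p i)) := by
  unfold At
  refine forall_congr' fun i => ?_
  rw [ge_back, map_sub, h]

theorem on_back (X : Fin (n + 2) → E) (p : Fin (n + 2) → Ω) :
    (∃ v : Place Ω' E', At v (fun i => φ (X i)) (fun i => τ (p i))) ↔
      ∃ v : Place Ω E, At v X p := by
  constructor
  · rintro ⟨v, hv⟩
    exact ⟨back τ φ h v, (at_back τ φ h v X p).2 hv⟩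
  · rintro ⟨v, hv⟩
    refine ⟨back τ.symm φ.symm (symm_comm τ φ h) v,
      (at_back τ.symm φ.symm (symm_comm τ φ h) v _ _).2 ?_⟩
    simpa using hv

theorem aeval_tr (X : Fin (n + 2) → E) (P : MvPolynomial (Fin (n + 2)) Ω) :
    aeval (fun i => φ (X i)) (map (τ : Ω →+* Ω') P) = φ (aeval X P) := by
  induction P using MvPolynomial.induction_on with
  | C a =>
    rw [map_C, aeval_C, aeval_C, h]
    rfl
  | add P Q hP hQ => simp only [map_add, hP, hQ]
  | mul_X P i hP => simp only [map_mul, hP, map_X, aeval_X]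

theorem trans_tr {f : E} (hf : Transcendental Ω f) : Transcendental Ω' (φ f) := by
  rw [transcendental_iff] at hf ⊢
  intro P hP
  have h1 : Polynomial.aeval f (P.map (τ.symm : Ω' →+* Ω)) = 0 := by
    apply φ.injective
    rw [map_zero, ← hP]
    induction P using Polynomial.induction_on' with
    | add P Q _ _ =>
      have key : ∀ P : Polynomial Ω', φ (Polynomial.aeval f (P.map (τ.symm : Ω' →+* Ω))) =
          Polynomial.aeval (φ f) P := by
        intro P
        induction P using Polynomial.induction_on' with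
        | add P Q hP hQ => simp only [Polynomial.map_add, map_add, hP, hQ]
        | monomial k a =>
          simp [Polynomial.aeval_monomial, h]
      exact key _
    | monomial k a =>
      simp [Polynomial.aeval_monomial, h]
  have h2 := hf _ h1
  exact (Polynomial.map_eq_zero_iff (f := (τ.symm : Ω' →+* Ω)) τ.symm.injective).1 h2

theorem mem_adj {S : Set E} {x : E} (hx : x ∈ adjoin Ω S) : φ x ∈ adjoin Ω' (φ '' S) := by
  induction hx using IntermediateField.adjoin_induction with
  | mem x hx => exact subset_adjoin _ _ ⟨x, hx, rfl⟩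
  | algebraMap x => rw [h]; exact (adjoin Ω' (φ '' S)).algebraMap_mem _
  | add x y _ _ hx hy => rw [map_add]; exact add_mem hx hy
  | inv x _ hx => rw [map_inv₀]; exact inv_mem hx
  | mul x y _ _ hx hy => rw [map_mul]; exact mul_mem hx hy

theorem mem_adj_iff {S : Set E} {x : E} : φ x ∈ adjoin Ω' (φ '' S) ↔ x ∈ adjoin Ω S := by
  constructor
  · intro hx
    have := mem_adj τ.symm φ.symm (symm_comm τ φ h) hx
    rw [RingEquiv.symm_apply_apply, ← Set.image_comp] at this
    simpa [Function.comp_def] using this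
  · exact mem_adj τ φ h

/-- the isomorphism of the simple extensions -/
noncomputable def eqv (f : E) : Ω⟮f⟯ ≃+* Ω'⟮φ f⟯ where
  toFun x := ⟨φ x, by
    have := mem_adj τ φ h x.2
    rwa [Set.image_singleton] at this⟩
  invFun y := ⟨φ.symm y, by
    have := mem_adj τ.symm φ.symm (symm_comm τ φ h) y.2
    rwa [Set.image_singleton, RingEquiv.symm_apply_apply] at this⟩
  left_inv x := by ext; simp
  right_inv y := by ext; simp
  map_mul' x y := by ext; simp
  map_add' x y := by ext; simp

theorem finrank_tr (f : E) : Module.finrank Ω⟮f⟯ E = Module.finrank Ω'⟮φ f⟯ E' :=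
  Algebra.finrank_eq_of_equiv_equiv (eqv τ φ h f) φ (by ext x; rfl)

theorem good_tr {X : Fin (n + 2) → E} (hX : Good Ω X) : Good Ω' (fun i => φ (X i)) where
  one := by rw [hX.one, map_one]
  tr := trans_tr τ φ h hX.tr
  fin v hv i := by
    have h1 := hX.fin (back τ φ h v) ((ge_back τ φ h v 0 _).2 hv) i
    exact (ge_back τ φ h v 0 _).1 h1
  inf v hv i := by
    have h1 := hX.inf (back τ φ h v) hv i
    have h2 := (ge_back τ φ h v 0 _).1 h1
    rwa [map_div₀] at h2
  gen := by
    rw [eq_top_iff]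
    intro y _
    have h1 : φ.symm y ∈ adjoin Ω (Set.range X) := by rw [hX.gen]; trivial
    have h2 := mem_adj τ φ h h1
    rw [RingEquiv.apply_symm_apply] at h2
    have h3 : φ '' Set.range X = Set.range fun i => φ (X i) := by
      rw [← Set.range_comp]; rfl
    rwa [h3] at h2

theorem ff_tr {f : E} (hf : Transcendental Ω f) [IsFF Ω E] : IsFF Ω' E' := by
  have h1 := trans_tr τ φ h hf
  refine IsFF.of_finite h1 ?_
  have h2 := IsFF.finite hf
  have h3 : 0 < Module.finrank Ω⟮f⟯ E := Module.finrank_pos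
  rw [finrank_tr τ φ h f] at h3
  exact FiniteDimensional.of_finrank_pos h3

end transport

/-- a copy of the field `E` -/
def Tw (E : Type) : Type := E

instance (E : Type) [Field E] : Field (Tw E) := inferInstanceAs (Field E)

theorem conj_ : StCONJ := by
  intro n Ω _ _ C τ
  let alg : Algebra Ω (Tw C.E) :=
    (((RingEquiv.refl C.E : C.E ≃+* C.E) : C.E →+* C.E).comp
      ((algebraMap Ω C.E).comp (τ.symm : Ω →+* Ω))).toAlgebra
  let φ : C.E ≃+* Tw C.E := RingEquiv.refl C.E
  have h : ∀ a, φ (algebraMap Ω C.E a) = algebraMap Ω (Tw C.E) (τ a) := by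
    intro a
    change algebraMap Ω C.E a = algebraMap Ω C.E (τ.symm (τ a))
    rw [RingEquiv.symm_apply_apply]
  have hff : IsFF Ω (Tw C.E) := ff_tr τ φ h C.good.tr
  refine ⟨@Crv.mk n Ω _ (Tw C.E) _ alg hff (fun i => φ (C.X i)) (good_tr τ φ h C.good), ?_, ?_, ?_⟩
  · exact (finrank_tr τ φ h (C.X 1)).symm
  · intro p
    exact on_back τ φ h C.X p
  · intro P
    have h1 := aeval_tr τ φ h C.X P
    constructor
    · intro h2
      have h3 : φ (aeval C.X P) = 0 := h1.symm.trans h2
      exact (map_eq_zero φ).1 h3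
    · intro h2
      refine h1.trans ?_
      rw [h2, map_zero]

section values

variable {n : ℕ} {Ω E : Type} [Field Ω] [Field E] [Algebra Ω E] {v : Place Ω E}
  {X : Fin (n + 2) → E} {p q : Fin (n + 2) → Ω}

theorem at_reg (hv : At v X p) (i : Fin (n + 2)) : Ge v 0 (X i) := by
  have h1 := ((hv i).mono (by norm_num : (0 : ℤ) ≤ 1)).add (Ge.const (P := v) (p i))
  rwa [sub_add_cancel] at h1

theorem ge_one_const {a : Ω} (ha : Ge v 1 (algebraMap Ω E a)) : a = 0 := by
  by_contra h0
  rcases ha with h1 | h1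
  · exact h0 ((map_eq_zero _).1 h1)
  · rw [v.ord_const h0] at h1
    omega

theorem at_unique (hp : At v X p) (hq : At v X q) : p = q := by
  funext i
  have h1 := (hq i).sub (hp i)
  have h2 : (X i - algebraMap Ω E (q i)) - (X i - algebraMap Ω E (p i)) =
      algebraMap Ω E (p i - q i) := by rw [map_sub]; ring
  rw [h2] at h1
  exact sub_eq_zero.1 (ge_one_const h1)

theorem at_value (hp : At v X p) (P : MvPolynomial (Fin (n + 2)) Ω) :
    Ge v 0 (aeval X P) ∧ Ge v 1 (aeval X P - algebraMap Ω E (eval p P)) := by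
  induction P using MvPolynomial.induction_on with
  | C a =>
    rw [aeval_C, eval_C, sub_self]
    exact ⟨Ge.const a, Ge.zero⟩
  | add P Q hP hQ =>
    refine ⟨?_, ?_⟩
    · rw [map_add]; exact hP.1.add hQ.1
    · have h1 : aeval X (P + Q) - algebraMap Ω E (eval p (P + Q)) =
          (aeval X P - algebraMap Ω E (eval p P)) + (aeval X Q - algebraMap Ω E (eval p Q)) := by
        simp only [map_add]; ring
      rw [h1]
      exact hP.2.add hQ.2
  | mul_X P i hP =>
    refine ⟨?_, ?_⟩
    · rw [map_mul, aeval_X]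
      simpa using hP.1.mul (at_reg hp i)
    · have h1 : aeval X (P * MvPolynomial.X i) - algebraMap Ω E (eval p (P * MvPolynomial.X i)) =
          (aeval X P - algebraMap Ω E (eval p P)) * X i +
            algebraMap Ω E (eval p P) * (X i - algebraMap Ω E (p i)) := by
        simp only [map_mul, aeval_X, eval_X]; ring
      rw [h1]
      refine Ge.add ?_ ?_
      · simpa using hP.2.mul (at_reg hp i)
      · simpa using (Ge.const (P := v) (eval p P)).mul (hp i)

end values

theorem inf_ : StINF := by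
  classical
  intro n Ω _ _ _ C C' hinf P hP
  by_contra hg
  apply hinf
  have hfin : {v : Place Ω C'.E | v.ord (aeval C'.X P) ≠ 0}.Finite :=
    finite_support (k := Ω) (K := C'.E) _
  have key : ∀ p : Fin (n + 2) → Ω, p ∈ {p : Fin (n + 2) → Ω | C.On p ∧ C'.On p} →
      ∃ v : Place Ω C'.E, v ∈ {v : Place Ω C'.E | v.ord (aeval C'.X P) ≠ 0} ∧ At v C'.X p := by
    rintro p ⟨⟨v, hv⟩, ⟨v', hv'⟩⟩
    have h1 := (at_value hv P).2
    rw [hP, zero_sub] at h1
    have h2 := h1.neg
    rw [neg_neg] at h2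
    have h3 : eval p P = 0 := ge_one_const h2
    have h4 := (at_value hv' P).2
    rw [h3, map_zero, sub_zero] at h4
    refine ⟨v', ?_, hv'⟩
    rcases h4 with h4 | h4
    · exact absurd h4 hg
    · change v'.ord _ ≠ 0
      omega
  choose f hf using key
  refine Set.Finite.of_injOn (f := fun p => if h : p ∈ {p : Fin (n + 2) → Ω | C.On p ∧ C'.On p} then
    f p h else Classical.choice (by
      obtain ⟨P, -⟩ := exists_place (k := Ω) (K := C'.E)
      exact ⟨P⟩)) (t := {v : Place Ω C'.E | v.ord (aeval C'.X P) ≠ 0}) ?_ ?_ hfin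
  · intro p hp
    simp only [dif_pos hp]
    exact (hf p hp).1
  · intro p hp q hq hpq
    simp only [dif_pos hp, dif_pos hq] at hpq
    have h1 := (hf p hp).2
    rw [hpq] at h1
    exact at_unique h1 (hf q hq).2

/-- every element of the function field is a quotient of polynomials in the coordinates -/
theorem exists_div {n : ℕ} {Ω : Type} [Field Ω] (C : Crv n Ω) (z : C.E) :
    ∃ P Q : MvPolynomial (Fin (n + 2)) Ω, z = aeval C.X P / aeval C.X Q := by
  have h1 : z ∈ adjoin Ω (Set.range C.X) := by rw [C.good.gen]; trivial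
  exact (IntermediateField.mem_adjoin_range_iff Ω C.X z).1 h1

theorem iso_ : StISO := by
  intro n Ω _ _ _ C C' hI
  let A := (aeval C.X : MvPolynomial (Fin (n + 2)) Ω →ₐ[Ω] C.E).range
  let A' := (aeval C'.X : MvPolynomial (Fin (n + 2)) Ω →ₐ[Ω] C'.E).range
  have hker : RingHom.ker (aeval C.X : MvPolynomial (Fin (n + 2)) Ω →ₐ[Ω] C.E) =
      RingHom.ker (aeval C'.X : MvPolynomial (Fin (n + 2)) Ω →ₐ[Ω] C'.E) := by
    ext P
    rw [RingHom.mem_ker, RingHom.mem_ker]
    exact hI P
  let e : A ≃ₐ[Ω] A' :=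
    (Ideal.quotientKerEquivRange (aeval C.X : MvPolynomial (Fin (n + 2)) Ω →ₐ[Ω] C.E)).symm.trans
      ((Ideal.quotientEquivAlgOfEq Ω hker).trans
        (Ideal.quotientKerEquivRange (aeval C'.X : MvPolynomial (Fin (n + 2)) Ω →ₐ[Ω] C'.E)))
  have he : ∀ P : MvPolynomial (Fin (n + 2)) Ω, e ⟨aeval C.X P, ⟨P, rfl⟩⟩ = ⟨aeval C'.X P, ⟨P, rfl⟩⟩ := by
    intro P
    have h1 : (⟨aeval C.X P, ⟨P, rfl⟩⟩ : A) =
        Ideal.quotientKerEquivRange (aeval C.X : MvPolynomial (Fin (n + 2)) Ω →ₐ[Ω] C.E)
          (Ideal.Quotient.mk _ P) := rfl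
    rw [h1]
    simp only [e, AlgEquiv.trans_apply, AlgEquiv.symm_apply_apply]
    rfl
  have hfr : IsFractionRing A C.E := IsFractionRing.of_field A C.E fun z => by
    obtain ⟨P, Q, hz⟩ := exists_div C z
    exact ⟨⟨_, ⟨P, rfl⟩⟩, ⟨_, ⟨Q, rfl⟩⟩, hz⟩
  have hfr' : IsFractionRing A' C'.E := IsFractionRing.of_field A' C'.E fun z => by
    obtain ⟨P, Q, hz⟩ := exists_div C' z
    exact ⟨⟨_, ⟨P, rfl⟩⟩, ⟨_, ⟨Q, rfl⟩⟩, hz⟩
  let φ : C.E ≃+* C'.E := IsFractionRing.ringEquivOfRingEquiv (e : A ≃+* A')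
  have hφ : ∀ P : MvPolynomial (Fin (n + 2)) Ω, φ (aeval C.X P) = aeval C'.X P := by
    intro P
    have h1 : φ (algebraMap A C.E ⟨aeval C.X P, ⟨P, rfl⟩⟩) =
        algebraMap A' C'.E (e ⟨aeval C.X P, ⟨P, rfl⟩⟩) :=
      IsFractionRing.ringEquivOfRingEquiv_algebraMap _ _
    rw [he] at h1
    exact h1
  have h : ∀ a, φ (algebraMap Ω C.E a) = algebraMap Ω C'.E (RingEquiv.refl Ω a) := by
    intro a
    have := hφ (MvPolynomial.C a)
    rw [aeval_C, aeval_C] at this
    exact this
  have hX : ∀ i, φ (C.X i) = C'.X i := by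
    intro i
    have := hφ (MvPolynomial.X i)
    rwa [aeval_X, aeval_X] at this
  have hX' : (fun i => φ (C.X i)) = C'.X := funext hX
  constructor
  · have h1 := finrank_tr (RingEquiv.refl Ω) φ h (C.X 1)
    unfold Crv.deg
    rw [h1, hX]
  · intro p
    have h1 := on_back (RingEquiv.refl Ω) φ h C.X p
    rw [hX'] at h1
    exact h1.symm

end Pool.Agent.N681.HN
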